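import Pool.Agent.T3h87.LT.Curves

/-!
# Primes `p ≡ a mod q` with prescribed traces `a_p(E₁) = r₁, ..., a_p(E_n) = r_n`, for almost all members of arbitrary polynomial families of elliptic curves

From Mathlib: `WeierstrassCurve R`, `W.Δ`: Weierstrass equations over the ring `R`, the discriminant; `W.map`: the image under a
homomorphism of rings; `W.toAffine.Point`: the nonsingular points over `R` (with the point at infinity), all points if `W.Δ ≠ 0`
and `R` is a field; `MvPolynomial (Fin D) ℤ`: the ring `ℤ[t₁, ..., t_D]`; `MvPolynomial.eval m`: the value at `t = m`.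

By the modularity theorem and the theory of new forms (not used here) the elliptic curves over `ℚ` without complex
multiplication are those of the forms of the question, and the trace is the Fourier coefficient `a_p`.

Definitions of ours: `Fam`: a random integer, given by finitely many values with weights, with a size; `Kind 𝓕`: six kinds of
sparse families (automatic sets; random integers whose blocks of digits can be exchanged; rearrangements of given digits;
palindromes; residues with small Fourier coefficients; integer parts of functions of non-integral order), in the file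
`Pool.Agent.T3h87.LT.Kinds`; `reduced E p m`: the curve `E` over `ℤ[t₁, ..., t_D]` at `t = m`, modulo `p`, in the file
`Pool.Agent.T3h87.LT.Curves`.

Method: for a single coordinate, the deviation of a sum over the primes of functions of the residue of a member of such a
family is at most the square root of the mean, for almost all members, in the starting library (`Pool.Agent.N794.CG`). The new
parts are an induction over the coordinates in which the error stays at the square root of the mean over all the coordinates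
(`Pool.Agent.T3h87.LT.Eng`), and the passage to arbitrary properties, without a bound for the number of those which are true at
a prime (`Pool.Agent.T3h87.LT.All`).
-/

set_option autoImplicit false

namespace Pool.Agent.Results.MP_631487_nt.PolynomialFamilies

open Finset Filter Pool.Agent.T3h87.LT

/-- `p` is a prime in the residue class of `a` modulo `q` which does not divide the discriminants of the equations `E i` at
`t = m`, and `a_p = r i` for the curve `E i` at `t = m`, for all `i`; here `a_p = p + 1 - N_p`, where `N_p` is the number of the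
points modulo `p`. -/
def Traces {D n : ℕ} (E : Fin n → WeierstrassCurve (MvPolynomial (Fin D) ℤ)) (r : Fin n → ℤ) (q a p : ℕ) (m : Fin D → ℤ) :
    Prop :=
  p.Prime ∧ p % q = a % q ∧
    ∀ i, (reduced (E i) p m).Δ ≠ 0 ∧ (p : ℤ) + 1 - Nat.card (reduced (E i) p m).toAffine.Point = r i

open Classical in
/-- The number `π(x)` of the primes `p ≤ x`, `p ≡ a mod q`, which do not divide the discriminants, with the traces `a_p = r i`
for all `i`. -/
noncomputable def count {D n : ℕ} (E : Fin n → WeierstrassCurve (MvPolynomial (Fin D) ℤ)) (r : Fin n → ℤ) (q a : ℕ)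
    (m : Fin D → ℤ) (x : ℕ) : ℕ := ((range (x + 1)).filter (fun p => Traces E r q a p m)).card

open Classical in
/-- The mean `M(x)` over the family: the sum over the primes `p ≤ x` of the proportion of the vectors `t` of residues modulo `p`
for which `Traces E r q a p t` holds. -/
noncomputable def model {D n : ℕ} (E : Fin n → WeierstrassCurve (MvPolynomial (Fin D) ℤ)) (r : Fin n → ℤ) (q a x : ℕ) : ℝ :=
  ∑ p ∈ (range (x + 1)).filter Nat.Prime,
    (((Fintype.piFinset fun _ : Fin D => range p).filter (fun t => Traces E r q a p (fun l => (t l : ℤ)))).card : ℝ) /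
      (p : ℝ) ^ D

/-- For all vectors `r` of integers with `|r i| ≤ x ^ ρ`, all `1 ≤ q ≤ x ^ ρ` and all `a`: the count `π(x)` differs from the mean
`M(x)` by at most `x ^ δ` times the square root of `M(2 ^ D x)` (or of `1`). -/
def Good {D n : ℕ} (ρ δ : ℝ) (x : ℕ) (E : Fin n → WeierstrassCurve (MvPolynomial (Fin D) ℤ)) (m : Fin D → ℤ) : Prop :=
  ∀ (r : Fin n → ℤ) (q a : ℕ), (∀ i, |(r i : ℝ)| ≤ (x : ℝ) ^ ρ) → 1 ≤ q → (q : ℝ) ≤ (x : ℝ) ^ ρ →
    |(count E r q a m x : ℝ) - model E r q a x| ≤ √(max 1 (model E r q a (2 ^ D * x))) * (x : ℝ) ^ δ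

/-- the property without the condition for the residue class -/
def Tr {D n : ℕ} (E : Fin n → WeierstrassCurve (MvPolynomial (Fin D) ℤ)) (r : Fin n → ℤ) (p : ℕ) (m : Fin D → ℤ) : Prop :=
  ∀ i, (reduced (E i) p m).Δ ≠ 0 ∧ (p : ℤ) + 1 - Nat.card (reduced (E i) p m).toAffine.Point = r i

lemma tr_congr {D n : ℕ} (E : Fin n → WeierstrassCurve (MvPolynomial (Fin D) ℤ)) (u : Fin (n + 2) → ℤ) (p : ℕ)
    (m m' : Fin D → ℤ) (h : ∀ l, (p : ℤ) ∣ m l - m' l) : cls (Tr E) u p m ↔ cls (Tr E) u p m' := by
  unfold cls Tr
  have h1 : ∀ i, reduced (E i) p m = reduced (E i) p m' := fun i => reduced_congr (E i) p m m' h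
  simp only [h1]

lemma traces_iff {D n : ℕ} (E : Fin n → WeierstrassCurve (MvPolynomial (Fin D) ℤ)) (r : Fin n → ℤ) (q a p : ℕ)
    (m : Fin D → ℤ) : Traces E r q a p m ↔ p.Prime ∧ cls (Tr E) (vec q a r) p m := by
  rw [cls_vec]
  rfl

lemma count_eq {D n : ℕ} (E : Fin n → WeierstrassCurve (MvPolynomial (Fin D) ℤ)) (r : Fin n → ℤ) (q a : ℕ) (m : Fin D → ℤ)
    (x : ℕ) : count E r q a m x = cnt (cls (Tr E) (vec q a r)) m x := by
  unfold count cnt
  congr 1
  ext p
  simp only [mem_filter, traces_iff]

lemma model_eq {D n : ℕ} (E : Fin n → WeierstrassCurve (MvPolynomial (Fin D) ℤ)) (r : Fin n → ℤ) (q a x : ℕ) :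
    model E r q a x = mdl (cls (Tr E) (vec q a r)) x := by
  unfold model mdl
  apply sum_congr rfl
  intro p hp
  have hp1 : p.Prime := (mem_filter.1 hp).2
  congr 3
  ext t
  simp only [mem_filter, traces_iff, hp1, true_and]

open Classical in
/-- Let `𝓕₁, ..., 𝓕_D` be kinds of sparse families (`Kind`), `n ≥ 0` and `0 < δ ≤ 1`. There are `W`, `e` and `ρ > 0` such that
for all `κ₁, ..., κ_D ≠ 0` and all sufficiently large `X` the following holds for all members `f l` of `𝓕 l (κ l)` and ALL
curves `E₁, ..., E_n` over `ℤ[t₁, ..., t_D]`, given by arbitrary Weierstrass equations with arbitrary polynomials as coefficients.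

Let `t₁, ..., t_D` be independent random integers, `t_l` with the distribution of `f l`. Up to a probability of at most
`X ^ (-ρ) ∑ (1 + |log Z_l|) ^ e`, where `Z_l` is the size of `f l`, the curves `E₁, ..., E_n` at `t` have the following property
for ALL `x ≥ X` with `x ^ W ≤ Z_l` for all `l`, ALL integers `|r₁|, ..., |r_n| ≤ x ^ ρ`, ALL `1 ≤ q ≤ x ^ ρ` and ALL `a`: the
number `π(x)` of the primes `p ≤ x`, `p ≡ a mod q`, of good reduction of these equations with `a_p(E₁) = r₁, ..., a_p(E_n) = r_n`
is `M(x)` up to an error of at most `x ^ δ (max 1 M(2 ^ D x)) ^ (1 / 2)`, where `M(x)` is the sum over the primes `p ≤ x`,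
`p ≡ a mod q`, of the proportion of the vectors of residues modulo `p` for which the curves have nonzero discriminants and the
traces `r₁, ..., r_n`. -/
theorem result (D n : ℕ) (𝓕 : Fin D → ℤ → Set Fam) (h𝓕 : ∀ l, Kind (𝓕 l)) (δ : ℝ) (hδ : 0 < δ) (hδ1 : δ ≤ 1) :
    ∃ (W e : ℕ) (ρ : ℝ), 1 ≤ W ∧ 0 < ρ ∧ ∀ κ : Fin D → ℤ, (∀ l, κ l ≠ 0) → ∃ X₀ : ℕ, ∀ X : ℕ, X₀ ≤ X →
    ∀ f : Fin D → Fam, (∀ l, f l ∈ 𝓕 l (κ l)) → ∀ E : Fin n → WeierstrassCurve (MvPolynomial (Fin D) ℤ),
    ∑ i ∈ (Fintype.piFinset fun l => (f l).set).filter (fun i => ¬ ∀ x : ℕ, X ≤ x → (∀ l, (x : ℝ) ^ W ≤ (f l).size) →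
      Good ρ δ x E (fun l => (f l).val (i l))), ∏ l, (f l).wt (i l) ≤
    (∑ l, (1 + |Real.log (f l).size|) ^ e) * (X : ℝ) ^ (-ρ) := by
  obtain ⟨W, e, ρ, hW, hρ, H⟩ := poly_props D (n + 2) 𝓕 h𝓕 δ hδ hδ1
  refine ⟨W, e, ρ, hW, hρ, fun κ hκ => ?_⟩
  obtain ⟨X₀, hX₀, J⟩ := H κ hκ
  refine ⟨X₀, fun X hX f hf E => ?_⟩
  refine J X hX f hf (cls (Tr E)) (fun u p _ m m' h => tr_congr E u p m m' h) _ (filter_subset _ _) ?_
  intro i hi hall
  refine (mem_filter.1 hi).2 fun x hXx hsz r q a hr hq hqx => ?_
  rw [count_eq, model_eq, model_eq]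
  exact hall x hXx hsz (vec q a r) (vec_le q a hq r _ hqx hr)

end Pool.Agent.Results.MP_631487_nt.PolynomialFamilies
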